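import Mathlib

set_option autoImplicit false

namespace Pool.Agent.Results.MP_451a93_nt.UpperBound

open Finset

/-- `A` is admissible: `a + b` does not divide `a b` for distinct `a, b ∈ A`. -/
def Admissible (A : Finset ℕ) : Prop := ∀ a ∈ A, ∀ b ∈ A, a ≠ b → ¬ (a + b ∣ a * b)

open Classical in
/-- The largest size of an admissible subset of `{1, …, n}`. -/
noncomputable def F (n : ℕ) : ℕ := ((Finset.Icc 1 n).powerset.filter Admissible).sup Finset.card

def T1 (n : ℕ) : Finset ℕ := (Finset.Icc 1 (n / 6)).filter (fun t => t % 2 = 1 ∨ t % 8 = 4)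

def T2 (n : ℕ) : Finset ℕ := (Finset.Ioc (n / 30) (n / 15)).filter (fun t => t % 2 = 1 ∧ t % 3 ≠ 0)

theorem T1_card (n : ℕ) : 5 * (n / 48) ≤ (T1 n).card := by
  classical
  have hR : (({1, 3, 4, 5, 7} : Finset ℕ)).card = 5 := by decide
  have hsub : ((Finset.range (n / 48)) ×ˢ ({1, 3, 4, 5, 7} : Finset ℕ)).image
      (fun x => 8 * x.1 + x.2) ⊆ T1 n := by
    intro t ht
    rw [mem_image] at ht
    obtain ⟨⟨k, r⟩, hx, rfl⟩ := ht
    rw [mem_product, mem_range] at hx
    obtain ⟨hk, hr⟩ := hx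
    simp only at hk hr
    have hr' : (r = 1 ∨ r = 3 ∨ r = 4 ∨ r = 5 ∨ r = 7) := by simpa using hr
    unfold T1
    rw [mem_filter, mem_Icc]
    simp only
    omega
  have hinj : Set.InjOn (fun x : ℕ × ℕ => 8 * x.1 + x.2)
      ((Finset.range (n / 48)) ×ˢ ({1, 3, 4, 5, 7} : Finset ℕ) : Finset (ℕ × ℕ)) := by
    rintro ⟨k, r⟩ hx ⟨k', r'⟩ hx' h
    rw [mem_coe, mem_product, mem_range] at hx hx'
    obtain ⟨hk, hr⟩ := hx
    obtain ⟨hk', hr'⟩ := hx'
    simp only at hk hr hk' hr' h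
    have h1 : (r = 1 ∨ r = 3 ∨ r = 4 ∨ r = 5 ∨ r = 7) := by simpa using hr
    have h2 : (r' = 1 ∨ r' = 3 ∨ r' = 4 ∨ r' = 5 ∨ r' = 7) := by simpa using hr'
    have h3 : k = k' := by omega
    have h4 : r = r' := by omega
    rw [h3, h4]
  have := Finset.card_le_card hsub
  rw [Finset.card_image_of_injOn hinj, card_product, card_range, hR] at this
  omega

theorem T2_card (n : ℕ) : 2 * (n / 90 - (n / 180 + 1)) ≤ (T2 n).card := by
  classical
  have hR : (({1, 5} : Finset ℕ)).card = 2 := by decide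
  have hsub : ((Finset.Ico (n / 180 + 1) (n / 90)) ×ˢ ({1, 5} : Finset ℕ)).image
      (fun x => 6 * x.1 + x.2) ⊆ T2 n := by
    intro t ht
    rw [mem_image] at ht
    obtain ⟨⟨k, r⟩, hx, rfl⟩ := ht
    rw [mem_product, mem_Ico] at hx
    obtain ⟨hk, hr⟩ := hx
    simp only at hk hr
    have hr' : (r = 1 ∨ r = 5) := by simpa using hr
    unfold T2
    rw [mem_filter, mem_Ioc]
    simp only
    omega
  have hinj : Set.InjOn (fun x : ℕ × ℕ => 6 * x.1 + x.2)
      ((Finset.Ico (n / 180 + 1) (n / 90)) ×ˢ ({1, 5} : Finset ℕ) : Finset (ℕ × ℕ)) := by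
    rintro ⟨k, r⟩ hx ⟨k', r'⟩ hx' h
    rw [mem_coe, mem_product] at hx hx'
    obtain ⟨hk, hr⟩ := hx
    obtain ⟨hk', hr'⟩ := hx'
    simp only at hk hr hk' hr' h
    have h1 : (r = 1 ∨ r = 5) := by simpa using hr
    have h2 : (r' = 1 ∨ r' = 5) := by simpa using hr'
    have h3 : k = k' := by omega
    have h4 : r = r' := by omega
    rw [h3, h4]
  have := Finset.card_le_card hsub
  rw [Finset.card_image_of_injOn hinj, card_product, Nat.card_Ico, hR] at this
  omega

theorem missing (n : ℕ) (A : Finset ℕ) (hA : A ⊆ Finset.Icc 1 n)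
    (h3 : ∀ t, 1 ≤ t → ¬ (3 * t ∈ A ∧ 6 * t ∈ A))
    (h10 : ∀ t, 1 ≤ t → ¬ (10 * t ∈ A ∧ 15 * t ∈ A)) :
    A.card + (T1 n).card + (T2 n).card ≤ n := by
  classical
  let g : ℕ → ℕ := fun t => if 3 * t ∉ A then 3 * t else 6 * t
  let g' : ℕ → ℕ := fun t => if 10 * t ∉ A then 10 * t else 15 * t
  have hg : ∀ t, g t = 3 * t ∨ g t = 6 * t := by
    intro t
    simp only [g]
    split_ifs <;> simp
  have hg' : ∀ t, g' t = 10 * t ∨ g' t = 15 * t := by
    intro t
    simp only [g']
    split_ifs <;> simp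
  have hgA : ∀ t, 1 ≤ t → g t ∉ A := by
    intro t ht
    by_cases c1 : 3 * t ∈ A
    · have hgt : g t = 6 * t := by simp [g, c1]
      rw [hgt]
      exact fun c2 => h3 t ht ⟨c1, c2⟩
    · have hgt : g t = 3 * t := by simp [g, c1]
      rw [hgt]
      exact c1
  have hgA' : ∀ t, 1 ≤ t → g' t ∉ A := by
    intro t ht
    by_cases c1 : 10 * t ∈ A
    · have hgt : g' t = 15 * t := by simp [g', c1]
      rw [hgt]
      exact fun c2 => h10 t ht ⟨c1, c2⟩
    · have hgt : g' t = 10 * t := by simp [g', c1]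
      rw [hgt]
      exact c1
  have i1 : Set.InjOn g (T1 n : Set ℕ) := by
    intro t ht u hu hgu
    unfold T1 at ht hu
    rw [mem_coe, mem_filter, mem_Icc] at ht hu
    rcases hg t with a | a <;> rcases hg u with b | b <;> rw [a, b] at hgu <;> omega
  have i2 : Set.InjOn g' (T2 n : Set ℕ) := by
    intro t ht u hu hgu
    unfold T2 at ht hu
    rw [mem_coe, mem_filter, mem_Ioc] at ht hu
    rcases hg' t with a | a <;> rcases hg' u with b | b <;> rw [a, b] at hgu <;> omega
  have hd : Disjoint ((T1 n).image g) ((T2 n).image g') := by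
    rw [Finset.disjoint_left]
    intro x hx hy
    rw [mem_image] at hx hy
    obtain ⟨t, ht, rfl⟩ := hx
    obtain ⟨u, hu, hgu⟩ := hy
    unfold T1 at ht
    unfold T2 at hu
    rw [mem_filter, mem_Icc] at ht
    rw [mem_filter, mem_Ioc] at hu
    rcases hg t with a | a <;> rcases hg' u with b | b <;> rw [a, b] at hgu <;> omega
  have hsub : (T1 n).image g ∪ (T2 n).image g' ⊆ Finset.Icc 1 n \ A := by
    intro x hx
    rw [mem_union, mem_image, mem_image] at hx
    rw [mem_sdiff, mem_Icc]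
    rcases hx with ⟨t, ht, rfl⟩ | ⟨t, ht, rfl⟩
    · unfold T1 at ht
      rw [mem_filter, mem_Icc] at ht
      refine ⟨?_, hgA t ht.1.1⟩
      rcases hg t with a | a <;> rw [a] <;> omega
    · unfold T2 at ht
      rw [mem_filter, mem_Ioc] at ht
      refine ⟨?_, hgA' t (by omega)⟩
      rcases hg' t with a | a <;> rw [a] <;> omega
  have h2 := Finset.card_le_card hsub
  rw [Finset.card_union_of_disjoint hd, Finset.card_image_of_injOn i1,
    Finset.card_image_of_injOn i2, Finset.card_sdiff_of_subset hA, Nat.card_Icc] at h2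
  have h4 : A.card ≤ n := by
    have := Finset.card_le_card hA
    rw [Nat.card_Icc] at this
    omega
  omega

/-- `F(n) ≤ (637/720) n + 12` for every `n`. -/
theorem result : ∀ n : ℕ, (F n : ℝ) ≤ 637 / 720 * (n : ℝ) + 12 := by
  classical
  intro n
  have hne : ((Finset.Icc 1 n).powerset.filter Admissible).Nonempty := by
    refine ⟨∅, ?_⟩
    rw [mem_filter, mem_powerset]
    exact ⟨Finset.empty_subset _, fun a ha => absurd ha (Finset.notMem_empty a)⟩
  obtain ⟨A, hS, hcard⟩ := Finset.exists_mem_eq_sup _ hne Finset.card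
  have hk : F n = A.card := by
    unfold F
    convert hcard
  rw [hk]
  rw [mem_filter, mem_powerset] at hS
  have hmiss := missing n A hS.1
    (by
      rintro t ht ⟨h1, h2⟩
      exact hS.2 _ h1 _ h2 (by omega) ⟨2 * t, by ring⟩)
    (by
      rintro t ht ⟨h1, h2⟩
      exact hS.2 _ h1 _ h2 (by omega) ⟨6 * t, by ring⟩)
  have hT1 := T1_card n
  have hT2 := T2_card n
  have h6 : 720 * A.card ≤ 637 * n + 8640 := by omega
  have h7 : (720 : ℝ) * (A.card : ℝ) ≤ 637 * (n : ℝ) + 8640 := by exact_mod_cast h6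
  linarith

end Pool.Agent.Results.MP_451a93_nt.UpperBound
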